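import Mathlib
import Pool.Agent.H341R2.WeilSharp

/-!
# Finite fields: counting irreducible polynomials modulo which two polynomials are not squares
-/

set_option autoImplicit false
set_option linter.all false

namespace Pool.Agent.R939.FF

open Polynomial Finset

section ext

variable {F E : Type} [Field F] [Fintype F] [Field E] [Fintype E] [Algebra F E]

theorem map_ne (hF : ringChar F ≠ 2) {f : F[X]} (hns : ∀ (c : F) (h : F[X]), f ≠ C c * h ^ 2)
    (c : E) (h : E[X]) : f.map (algebraMap F E) ≠ C c * h ^ 2 := by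
  intro e
  have hf0 : f ≠ 0 := by
    rintro rfl
    exact hns 0 0 (by simp)
  have hl : f.leadingCoeff ≠ 0 := leadingCoeff_ne_zero.2 hf0
  set f1 := C f.leadingCoeff⁻¹ * f with hf1
  have hm : f1.Monic := by
    rw [hf1, Monic, leadingCoeff_mul, leadingCoeff_C, inv_mul_cancel₀ hl]
  have h1 : f = C f.leadingCoeff * f1 := by
    rw [hf1, ← mul_assoc, ← C_mul, mul_inv_cancel₀ hl, C_1, one_mul]
  have hns1 : ∀ (c : F) (h : F[X]), f1 ≠ C c * h ^ 2 := by
    intro c h e
    apply hns (f.leadingCoeff * c) h
    rw [C_mul, mul_assoc, ← e]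
    exact h1
  refine H341R2.Sharp.map_ne_sq (E := E) hF hm hns1 ((algebraMap F E f.leadingCoeff)⁻¹ * c) h ?_
  have hl' : algebraMap F E f.leadingCoeff ≠ 0 := (_root_.map_ne_zero _).2 hl
  have e2 : (f1.map (algebraMap F E)) =
      C (algebraMap F E f.leadingCoeff)⁻¹ * f.map (algebraMap F E) := by
    rw [hf1, Polynomial.map_mul, map_C, map_inv₀]
  rw [e2, e, C_mul, mul_assoc]

theorem sum_bound [DecidableEq E] (hF : ringChar F ≠ 2) {f : F[X]}
    (hns : ∀ (c : F) (h : F[X]), f ≠ C c * h ^ 2) :
    |∑ x : E, (quadraticChar E (aeval x f) : ℝ)| ≤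
      5 * f.natDegree * Real.sqrt (Fintype.card E) := by
  have hE : ringChar E ≠ 2 := by
    rwa [← Algebra.ringChar_eq F E]
  have hd : 1 ≤ (f.map (algebraMap F E)).natDegree := by
    rw [natDegree_map]
    by_contra hcon
    have h0 : f.natDegree = 0 := by omega
    refine hns (f.coeff 0) 1 ?_
    rw [one_pow, mul_one]
    exact eq_C_of_natDegree_eq_zero h0
  have h1 := H341R2.weil_bound hE (f.map (algebraMap F E)) hd (map_ne hF hns)
  rw [natDegree_map] at h1
  have h3 : ∀ x : E, (f.map (algebraMap F E)).eval x = aeval x f := fun x => eval_map_algebraMap _ _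
  simp_rw [h3] at h1
  exact h1

theorem card_zeros [DecidableEq E] {f : F[X]} (hf : f ≠ 0) :
    ((univ.filter fun x : E => aeval x f = 0).card) ≤ f.natDegree := by
  have h4 : (univ.filter fun x : E => aeval x f = 0) ⊆ (f.aroots E).toFinset := by
    intro x hx
    rw [mem_filter] at hx
    rw [Multiset.mem_toFinset, mem_aroots]
    exact ⟨hf, hx.2⟩
  refine (card_le_card h4).trans ((Multiset.toFinset_card_le _).trans ?_)
  rw [aroots]
  refine (card_roots' _).trans ?_
  rw [natDegree_map]

/-- points at which two polynomials are not squares -/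
theorem card_nonsq [DecidableEq E] (hF : ringChar F ≠ 2) {f g : F[X]}
    (hf : ∀ (c : F) (h : F[X]), f ≠ C c * h ^ 2) (hg : ∀ (c : F) (h : F[X]), g ≠ C c * h ^ 2)
    (hfg : ∀ (c : F) (h : F[X]), f * g ≠ C c * h ^ 2) :
    (Fintype.card E : ℝ) ≤ 4 * ((univ.filter fun x : E => quadraticChar E (aeval x f) = -1 ∧
      quadraticChar E (aeval x g) = -1).card : ℝ) +
      12 * (f.natDegree + g.natDegree : ℕ) * Real.sqrt (Fintype.card E) := by
  have hf0 : f ≠ 0 := by
    rintro rfl
    exact hf 0 0 (by simp)
  have hg0 : g ≠ 0 := by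
    rintro rfl
    exact hg 0 0 (by simp)
  have b1 := sum_bound (E := E) hF hf
  have b2 := sum_bound (E := E) hF hg
  have b3 := sum_bound (E := E) hF hfg
  rw [natDegree_mul hf0 hg0] at b3
  have z1 := card_zeros (E := E) hf0
  have z2 := card_zeros (E := E) hg0
  have hpt : ∀ x : E, (1 : ℝ) - (quadraticChar E (aeval x f) : ℝ) - (quadraticChar E (aeval x g) : ℝ)
      + (quadraticChar E (aeval x (f * g)) : ℝ) ≤
      4 * (if quadraticChar E (aeval x f) = -1 ∧ quadraticChar E (aeval x g) = -1 then 1 else 0) +
      2 * (if aeval x f = 0 then 1 else 0) + 2 * (if aeval x g = 0 then 1 else 0) := by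
    intro x
    rw [map_mul, map_mul]
    by_cases h1 : aeval x f = 0
    · by_cases h2 : aeval x g = 0
      · simp [h1, h2]
        norm_num
      · rcases quadraticChar_dichotomy h2 with h | h <;> simp [h1, h2, h] <;> norm_num
    · by_cases h2 : aeval x g = 0
      · rcases quadraticChar_dichotomy h1 with h | h <;> simp [h1, h2, h] <;> norm_num
      · rcases quadraticChar_dichotomy h1 with h | h <;>
        rcases quadraticChar_dichotomy h2 with h' | h' <;> simp [h1, h2, h, h'] <;> norm_num
  have hs := Finset.sum_le_sum (s := (univ : Finset E)) fun x _ => hpt x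
  rw [sum_add_distrib, sum_add_distrib, sum_add_distrib, sum_sub_distrib, sum_sub_distrib,
    ← mul_sum, ← mul_sum, ← mul_sum, sum_boole, sum_boole, sum_boole] at hs
  rw [sum_const, card_univ, nsmul_eq_mul, mul_one] at hs
  have hz1 : ((univ.filter fun x : E => aeval x f = 0).card : ℝ) ≤ f.natDegree := by
    exact_mod_cast z1
  have hz2 : ((univ.filter fun x : E => aeval x g = 0).card : ℝ) ≤ g.natDegree := by
    exact_mod_cast z2
  have hsq : 1 ≤ Real.sqrt (Fintype.card E) := by
    rw [show (1 : ℝ) = Real.sqrt 1 by simp]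
    apply Real.sqrt_le_sqrt
    have : 1 ≤ Fintype.card E := Fintype.card_pos
    exact_mod_cast this
  have c1 := abs_le.1 b1
  have c2 := abs_le.1 b2
  have c3 := abs_le.1 b3
  push_cast at c3 hs ⊢
  have d1 : (f.natDegree : ℝ) ≤ f.natDegree * Real.sqrt (Fintype.card E) :=
    le_mul_of_one_le_right (by positivity) hsq
  have d2 : (g.natDegree : ℝ) ≤ g.natDegree * Real.sqrt (Fintype.card E) :=
    le_mul_of_one_le_right (by positivity) hsq
  nlinarith [c1.1, c1.2, c2.1, c2.2, c3.1, c3.2]

/-- points of smaller degree -/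
theorem card_small [DecidableEq E] :
    (univ.filter fun x : E => (minpoly F x).natDegree ≠ Module.finrank F E).card ≤
      Fintype.card F ^ (Module.finrank F E / 2 + 1) := by
  classical
  haveI : FiniteDimensional F E := Module.Finite.of_finite
  set n := Module.finrank F E with hn
  set q := Fintype.card F with hq
  have hq2 : 2 ≤ q := Fintype.one_lt_card
  have hsub : (univ.filter fun x : E => (minpoly F x).natDegree ≠ n) ⊆
      (Finset.range (n / 2 + 1)).biUnion fun m => univ.filter fun x : E =>
        m ≠ 0 ∧ x ^ q ^ m = x := by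
    intro x hx
    rw [mem_filter] at hx
    rw [mem_biUnion]
    set m := (minpoly F x).natDegree with hm
    have hint : IsIntegral F x := Algebra.IsIntegral.isIntegral x
    have hm0 : 0 < m := minpoly.natDegree_pos hint
    have hdvd : m ∣ n := by
      rw [hm, ← IntermediateField.adjoin.finrank hint]
      exact ⟨_, (Module.finrank_mul_finrank F (IntermediateField.adjoin F {x}) E).symm⟩
    have hpow : x ^ q ^ m = x := by
      haveI : Fintype (IntermediateField.adjoin F {x}) := Fintype.ofFinite _
      have h1 : Fintype.card (IntermediateField.adjoin F {x}) = q ^ m := by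
        rw [Module.card_eq_pow_finrank (K := F), IntermediateField.adjoin.finrank hint]
      have h2 := FiniteField.pow_card
        (⟨x, IntermediateField.mem_adjoin_simple_self F x⟩ : IntermediateField.adjoin F {x})
      rw [h1] at h2
      exact congrArg Subtype.val h2
    refine ⟨m, ?_, mem_filter.2 ⟨mem_univ _, hm0.ne', hpow⟩⟩
    rw [mem_range]
    obtain ⟨t, ht⟩ := hdvd
    have hn0 : 0 < n := Module.finrank_pos
    have ht2 : 2 ≤ t := by
      rcases t with _ | _ | t
      · omega
      · exfalso
        apply hx.2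
        omega
      · omega
    have : m * 2 ≤ n := by
      rw [ht]
      exact Nat.mul_le_mul_left m ht2
    omega
  refine (card_le_card hsub).trans (card_biUnion_le.trans ?_)
  have h3 : ∀ m ∈ Finset.range (n / 2 + 1), (univ.filter fun x : E =>
      m ≠ 0 ∧ x ^ q ^ m = x).card ≤ q ^ m := by
    intro m _
    by_cases hm : m = 0
    · simp [hm]
    have hqm : 1 < q ^ m := Nat.one_lt_pow hm hq2
    have h4 : (univ.filter fun x : E => m ≠ 0 ∧ x ^ q ^ m = x) ⊆
        (X ^ q ^ m - X : E[X]).roots.toFinset := by
      intro x hx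
      rw [mem_filter] at hx
      rw [Multiset.mem_toFinset, mem_roots (FiniteField.X_pow_card_sub_X_ne_zero _ hqm)]
      simp [IsRoot, hx.2.2]
    refine (card_le_card h4).trans ((Multiset.toFinset_card_le _).trans ?_)
    refine (card_roots' _).trans ?_
    rw [FiniteField.X_pow_card_sub_X_natDegree_eq _ hqm]
  refine (Finset.sum_le_sum h3).trans ?_
  exact (Nat.geomSum_lt hq2 fun k hk => mem_range.1 hk).le

end ext

end Pool.Agent.R939.FF
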