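import Pool.Agent.R939.FF.Cnt
import Pool.Agent.R939.EI.Tw1

/-!
# Finite fields: the quadratic twists by primes
-/

set_option autoImplicit false
set_option linter.all false

namespace Pool.Agent.R939.FF

open Polynomial Pool.Agent.R939.EI Pool.Agent.TH115.GD

section count

variable {k : Type} [Field k] [Fintype k]

/-- irreducible polynomials modulo which `f` and `g` are not squares -/
theorem exists_many (hk : ringChar k ≠ 2) {f g : k[X]}
    (hf : ∀ (c : k) (h : k[X]), f ≠ C c * h ^ 2) (hg : ∀ (c : k) (h : k[X]), g ≠ C c * h ^ 2)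
    (hfg : ∀ (c : k) (h : k[X]), f * g ≠ C c * h ^ 2) (n : ℕ) (hn : n ≠ 0) :
    ∃ T : Finset k[X], (∀ D ∈ T, D.Monic ∧ Irreducible D ∧ D.natDegree = n ∧
      ∀ r : k[X], ¬ D ∣ f - r ^ 2 ∧ ¬ D ∣ g - r ^ 2) ∧
      (Fintype.card k : ℝ) ^ n ≤ 4 * (n * T.card) +
        (12 * (f.natDegree + g.natDegree : ℕ) + 4 * Fintype.card k) *
          (Real.sqrt (Fintype.card k)) ^ n := by
  classical
  obtain ⟨p, hp⟩ := CharP.exists k
  haveI : Fact (Nat.Prime p) := ⟨CharP.char_is_prime k p⟩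
  haveI : NeZero n := ⟨hn⟩
  let E := FiniteField.Extension k p n
  letI : Fintype E := Fintype.ofFinite E
  haveI : FiniteDimensional k E := Module.Finite.of_finite
  have hfr : Module.finrank k E = n := FiniteField.finrank_extension k p n
  have hcard : Fintype.card E = Fintype.card k ^ n := by
    rw [Module.card_eq_pow_finrank (K := k) (V := E), hfr]
  set S : Finset E := Finset.univ.filter fun x : E => quadraticChar E (aeval x f) = -1 ∧
      quadraticChar E (aeval x g) = -1 with hS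
  set Bd : Finset E := Finset.univ.filter fun x : E =>
    (minpoly k x).natDegree ≠ Module.finrank k E with hBd
  have h1 := card_nonsq (E := E) hk hf hg hfg
  have h2 : Bd.card ≤ Fintype.card k ^ (Module.finrank k E / 2 + 1) := card_small (F := k) (E := E)
  rw [← hS] at h1
  have hsq : Real.sqrt (Fintype.card E) = (Real.sqrt (Fintype.card k)) ^ n := by
    rw [hcard]
    push_cast
    rw [Real.sqrt_eq_iff_mul_self_eq (by positivity) (by positivity), ← mul_pow,
      Real.mul_self_sqrt (by positivity)]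
  have hq1 : (1 : ℝ) ≤ Fintype.card k := by exact_mod_cast Fintype.card_pos
  have h3 : (Bd.card : ℝ) ≤ Fintype.card k * (Real.sqrt (Fintype.card k)) ^ n := by
    have h4 : (Bd.card : ℝ) ≤ (Fintype.card k : ℝ) ^ (n / 2 + 1) := by
      rw [hfr] at h2
      exact_mod_cast h2
    refine h4.trans ?_
    rw [pow_succ, mul_comm]
    refine mul_le_mul_of_nonneg_left ?_ (by positivity)
    have h5 : (Fintype.card k : ℝ) ^ (n / 2) = (Real.sqrt (Fintype.card k)) ^ (2 * (n / 2)) := by
      rw [pow_mul, Real.sq_sqrt (by positivity)]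
    rw [h5]
    refine pow_le_pow_right₀ ?_ (Nat.mul_div_le n 2)
    rw [show (1 : ℝ) = Real.sqrt 1 by simp]
    exact Real.sqrt_le_sqrt hq1
  set T : Finset k[X] := (S \ Bd).image fun x => minpoly k x with hT
  have hx : ∀ x ∈ S \ Bd, (quadraticChar E (aeval x f) = -1 ∧
      quadraticChar E (aeval x g) = -1) ∧ (minpoly k x).natDegree = n := by
    intro x hx
    rw [Finset.mem_sdiff, hS, hBd, Finset.mem_filter, Finset.mem_filter] at hx
    refine ⟨hx.1.2, ?_⟩
    by_contra hne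
    exact hx.2 ⟨Finset.mem_univ _, by rw [hfr]; exact hne⟩
  refine ⟨T, ?_, ?_⟩
  · intro D hD
    obtain ⟨x, hxS, rfl⟩ := Finset.mem_image.1 hD
    obtain ⟨⟨e1, e2⟩, e3⟩ := hx x hxS
    have hint : IsIntegral k x := Algebra.IsIntegral.isIntegral x
    refine ⟨minpoly.monic hint, minpoly.irreducible hint, e3, ?_⟩
    have key : ∀ (w r : k[X]), quadraticChar E (aeval x w) = -1 → ¬ minpoly k x ∣ w - r ^ 2 := by
      intro w r hw hdv
      have h5 : aeval x (w - r ^ 2) = 0 := (minpoly.dvd_iff).1 hdv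
      rw [map_sub, map_pow, sub_eq_zero] at h5
      rw [h5] at hw
      by_cases h0 : aeval x r = 0
      · rw [h0, zero_pow two_ne_zero, MulChar.map_zero] at hw
        norm_num at hw
      · rw [quadraticChar_sq_one' h0] at hw
        norm_num at hw
    intro r
    exact ⟨key f r e1, key g r e2⟩
  · have h6 : (S \ Bd).card ≤ n * T.card := by
      refine Finset.card_le_mul_card_image (S \ Bd) n ?_
      intro D hD
      obtain ⟨x, hxS, rfl⟩ := Finset.mem_image.1 hD
      have hdeg := (hx x hxS).2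
      have hne : minpoly k x ≠ 0 := minpoly.ne_zero (Algebra.IsIntegral.isIntegral x)
      have hsub : ((S \ Bd).filter fun y => minpoly k y = minpoly k x) ⊆
          ((minpoly k x).aroots E).toFinset := by
        intro y hy
        rw [Finset.mem_filter] at hy
        rw [Multiset.mem_toFinset, mem_aroots]
        refine ⟨hne, ?_⟩
        rw [← hy.2]
        exact minpoly.aeval _ _
      refine (Finset.card_le_card hsub).trans ((Multiset.toFinset_card_le _).trans ?_)
      rw [aroots]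
      refine (card_roots' _).trans ?_
      rw [natDegree_map, hdeg]
    have h7 : (S.card : ℝ) ≤ n * T.card + Bd.card := by
      have h8 : S.card ≤ (S \ Bd).card + Bd.card := by
        have := Finset.le_card_sdiff Bd S
        omega
      have h9 : S.card ≤ n * T.card + Bd.card := by omega
      exact_mod_cast h9
    rw [hsq, hcard] at h1
    push_cast at h1 ⊢
    nlinarith

theorem sq_le_pow (n : ℕ) (hn : 4 ≤ n) : n ^ 2 ≤ 2 ^ n := by
  induction n, hn using Nat.le_induction with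
  | base => norm_num
  | succ n hn ih =>
    have : (n + 1) ^ 2 ≤ 2 * n ^ 2 := by nlinarith
    calc (n + 1) ^ 2 ≤ 2 * n ^ 2 := this
      _ ≤ 2 * 2 ^ n := Nat.mul_le_mul_left 2 ih
      _ = 2 ^ (n + 1) := by rw [pow_succ]; ring

/-- the asymptotic form -/
theorem exists_quarter (hk : ringChar k ≠ 2) {f g : k[X]}
    (hf : ∀ (c : k) (h : k[X]), f ≠ C c * h ^ 2) (hg : ∀ (c : k) (h : k[X]), g ≠ C c * h ^ 2)
    (hfg : ∀ (c : k) (h : k[X]), f * g ≠ C c * h ^ 2) {η : ℝ} (hη : 0 < η) :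
    ∃ n0 : ℕ, ∀ n : ℕ, n0 ≤ n → ∃ T : Finset k[X], (∀ D ∈ T, D.Monic ∧ Irreducible D ∧
      D.natDegree = n ∧ ∀ r : k[X], ¬ D ∣ f - r ^ 2 ∧ ¬ D ∣ g - r ^ 2) ∧
      (1 / 4 - η) * (Fintype.card k : ℝ) ^ n ≤ n * T.card := by
  set A : ℝ := (12 * (f.natDegree + g.natDegree : ℕ) + 4 * Fintype.card k) / (4 * η) with hA
  obtain ⟨N, hN⟩ := exists_nat_ge A
  refine ⟨max 4 N, fun n hn => ?_⟩
  have hn4 : 4 ≤ n := (le_max_left _ _).trans hn
  have hnN : N ≤ n := (le_max_right _ _).trans hn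
  obtain ⟨T, hT, hc⟩ := exists_many hk hf hg hfg n (by omega)
  refine ⟨T, hT, ?_⟩
  set Q : ℝ := (Real.sqrt (Fintype.card k)) ^ n with hQ
  have hq2 : (2 : ℝ) ≤ Fintype.card k := by exact_mod_cast Fintype.one_lt_card
  have hQQ : (Fintype.card k : ℝ) ^ n = Q * Q := by
    rw [hQ, ← mul_pow, Real.mul_self_sqrt (by positivity)]
  have hQ0 : 0 ≤ Q := by positivity
  have hQn : (n : ℝ) ≤ Q := by
    have h1 : (n : ℝ) * n ≤ Q * Q := by
      rw [← hQQ]
      have h2 : n ^ 2 ≤ 2 ^ n := sq_le_pow n hn4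
      have h3 : (n : ℝ) ^ 2 ≤ 2 ^ n := by exact_mod_cast h2
      calc (n : ℝ) * n = n ^ 2 := by ring
        _ ≤ 2 ^ n := h3
        _ ≤ (Fintype.card k : ℝ) ^ n := pow_le_pow_left₀ (by norm_num) hq2 n
    nlinarith
  have hAQ : (12 * (f.natDegree + g.natDegree : ℕ) + 4 * (Fintype.card k : ℝ)) ≤ 4 * η * Q := by
    have h1 : A ≤ Q := hN.trans ((by exact_mod_cast hnN : (N : ℝ) ≤ n).trans hQn)
    rw [hA, div_le_iff₀ (by positivity)] at h1
    linarith
  have h5 : (12 * (f.natDegree + g.natDegree : ℕ) + 4 * (Fintype.card k : ℝ)) * Q ≤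
      4 * η * Q * Q := mul_le_mul_of_nonneg_right hAQ hQ0
  rw [hQQ] at hc ⊢
  nlinarith

end count

section main

variable {k k' K F : Type} [Field k] [Field k'] [Algebra k k'] [Field K] [Algebra k[X] K]
    [Field F] [Algebra k'[X] F] [IsFractionRing k'[X] F] [Algebra K F]

/-- a polynomial which is not a constant times a square, from `NotNorm` -/
theorem ne_sq_of_notNorm {f : k[X]} (h : NotNorm f) (c : k) (g : k[X]) : f ≠ C c * g ^ 2 := by
  intro e
  exact (h c 1 g 0 (by rw [e]; ring)).1 rfl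

/-- **The twists by primes, over finite fields.** -/
theorem prime_twists [Fintype k] (hT : IsTower k k' K F) (hk : ringChar k ≠ 2) {a b : k[X]}
    (hNb : NotNorm b) (hNd : NotNorm (a ^ 2 - 4 * b))
    (hbd : ∀ (c : k) (g : k[X]), b * (a ^ 2 - 4 * b) ≠ C c * g ^ 2)
    (hO : OnlyTrivial a b) (hO' : OnlyTrivial (-2 * a) (a ^ 2 - 4 * b)) {η : ℝ} (hη : 0 < η) :
    ∃ n0 : ℕ, ∀ n : ℕ, n0 ≤ n → ∃ T : Finset k[X],
      (∀ D ∈ T, D.Monic ∧ Irreducible D ∧ D.natDegree = n ∧
        ∀ (c : k) (h : k[X]), c ≠ 0 → Odd h.natDegree →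
          (∀ π : k[X], Irreducible π → π ∣ b * (a ^ 2 - 4 * b) * D → Irreducible (π.comp h)) →
          TateAtTwo (F := F) k' (crvT (algebraMap k[X] K ((C c * (a * D)).comp h))
            (algebraMap k[X] K ((C (c ^ 2) * (b * D ^ 2)).comp h)))) ∧
      (1 / 4 - η) * (Fintype.card k : ℝ) ^ n ≤ n * T.card := by
  have h2 : (2 : k) ≠ 0 := Ring.two_ne_zero hk
  obtain ⟨n0, hn⟩ := exists_quarter hk (ne_sq_of_notNorm hNb) (ne_sq_of_notNorm hNd) hbd hη
  refine ⟨n0, fun n hnn => ?_⟩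
  obtain ⟨T, hT', hc⟩ := hn n hnn
  refine ⟨T, fun D hD => ?_, hc⟩
  obtain ⟨h3, h4, h5, h6⟩ := hT' D hD
  refine ⟨h3, h4, h5, ?_⟩
  intro c h hc hodd hi
  have hb0 : b ≠ 0 := by
    rintro rfl
    exact ne_sq_of_notNorm hNb 0 0 (by simp)
  have hd0 : a ^ 2 - 4 * b ≠ 0 := by
    intro h0
    exact ne_sq_of_notNorm hNd 0 0 (by rw [h0]; simp)
  refine twist_main hT h2 hb0 hd0 hNb hNd hO hO' ⟨h4.ne_zero, ?_⟩ hc hodd ?_
  · intro π hπ hdv r
    have has : Associated π D := (hπ.associated_of_dvd h4 hdv)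
    refine ⟨fun h7 => (h6 r).1 (has.symm.dvd.trans h7), fun h7 => (h6 r).2 (has.symm.dvd.trans h7)⟩
  · intro π hπ hdv
    have h7 := hi π hπ hdv
    exact ⟨h7, PerfectField.separable_of_irreducible h7⟩

end main

end Pool.Agent.R939.FF
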